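import Pool.Agent.X51.KE.Stm

set_option autoImplicit false

namespace Pool.Agent.X115.KE

open Pool.Agent.X51.KE

/-- the integers of `S` -/
def P (K : ℕ) (z : ℤ) : Prop := (-(K : ℤ) ≤ z ∧ z ≤ K) ∨ z = K + 2 ∨ z = -K - 2

theorem P_neg {K : ℕ} {z : ℤ} (h : P K z) : P K (-z) := by
  unfold P at *
  omega

theorem ins_of_P {n K : ℕ} {z : ℤ} (h : P K z) : InS n K (z : ZMod n) := by
  have pos : ∀ k : ℕ, 1 ≤ k → (k ≤ K ∨ k = K + 2) → ∃ l : Fin (K + 1), fr n K l = (k : ZMod n) := by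
    intro k hk1 hk
    rcases hk with hk | hk
    · refine ⟨⟨k - 1, by omega⟩, ?_⟩
      unfold fr
      rw [if_pos (by simp only; omega)]
      congr 1
      simp only
      omega
    · refine ⟨⟨K, by omega⟩, ?_⟩
      unfold fr
      rw [if_neg (by simp)]
      rw [hk]
  unfold P at h
  rcases lt_trichotomy z 0 with hz | hz | hz
  · obtain ⟨k, hk⟩ : ∃ k : ℕ, z = -(k : ℤ) := ⟨z.natAbs, by omega⟩
    obtain ⟨l, hl⟩ := pos k (by omega) (by omega)
    refine Or.inr ⟨l, Or.inr ?_⟩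
    rw [hl, hk]
    push_cast
    rfl
  · left
    rw [hz]
    simp
  · obtain ⟨k, hk⟩ : ∃ k : ℕ, z = (k : ℤ) := ⟨z.natAbs, by omega⟩
    obtain ⟨l, hl⟩ := pos k (by omega) (by omega)
    refine Or.inr ⟨l, Or.inl ?_⟩
    rw [hl, hk]
    push_cast
    rfl

theorem key (n K M : ℕ) (hK : 1 ≤ K) (hn : 2 * K + 7 ≤ n) (hM1 : 1 ≤ M) (hM2 : 2 * M + 1 ≤ n) :
    ∃ h1 h2 : ℤ, h1 ≠ h2 ∧ ¬ P K h1 ∧ ¬ P K h2 ∧ P K (M + h1) ∧ P K (M + h2) ∧
      (K : ℤ) + 3 - n ≤ h1 ∧ h1 ≤ K + 2 ∧ (K : ℤ) + 3 - n ≤ h2 ∧ h2 ≤ K + 2 := by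
  unfold P
  by_cases c1 : M = 1
  · exact ⟨-K - 1, K + 1, by omega⟩
  by_cases c2 : M = 2
  · exact ⟨-K - 4, -K - 1, by omega⟩
  by_cases c3 : M ≤ 2 * K + 1
  · exact ⟨-K - 3, -K - 1, by omega⟩
  · exact ⟨-M, -M - 1, by omega⟩

/-- the set of integers -/
noncomputable def Z (K : ℕ) (h1 h2 : ℤ) : Finset ℤ :=
  insert h1 (insert h2 (insert ((K : ℤ) + 2) (insert (-(K : ℤ) - 2) (Finset.Icc (-(K : ℤ)) K))))

theorem Z_card {K : ℕ} {h1 h2 : ℤ} (h12 : h1 ≠ h2) (n1 : ¬ P K h1) (n2 : ¬ P K h2) :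
    (Z K h1 h2).card = 2 * K + 5 := by
  unfold P at n1 n2
  unfold Z
  rw [Finset.card_insert_of_notMem, Finset.card_insert_of_notMem, Finset.card_insert_of_notMem,
    Finset.card_insert_of_notMem, Int.card_Icc]
  · omega
  · simp only [Finset.mem_Icc]
    omega
  · simp only [Finset.mem_insert, Finset.mem_Icc]
    omega
  · simp only [Finset.mem_insert, Finset.mem_Icc]
    omega
  · simp only [Finset.mem_insert, Finset.mem_Icc]
    omega

theorem Z_mem {K : ℕ} {h1 h2 z : ℤ} (hz : z ∈ Z K h1 h2) : z = h1 ∨ z = h2 ∨ P K z := by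
  unfold Z at hz
  unfold P
  simp only [Finset.mem_insert, Finset.mem_Icc] at hz
  omega

theorem cast_inj {n : ℕ} {z z' : ℤ} (h : (z : ZMod n) = z') (h1 : z - z' < n)
    (h2 : z' - z < n) : z = z' := by
  have h3 : (n : ℤ) ∣ z' - z := (ZMod.intCast_eq_intCast_iff_dvd_sub _ _ _).1 h
  have h4 : z' - z = 0 := Int.eq_zero_of_abs_lt_dvd h3 (by rw [abs_lt]; constructor <;> omega)
  omega

theorem t : S_COMB := by
  intro n K hK hodd hn m hm
  haveI : NeZero n := ⟨by omega⟩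
  obtain ⟨r, hr⟩ := hodd
  have hv : m.val < n := ZMod.val_lt m
  have hv0 : m.val ≠ 0 := by rwa [Ne, ZMod.val_eq_zero]
  have hmv : ((m.val : ℕ) : ZMod n) = m := ZMod.natCast_zmod_val m
  by_cases hc : 2 * m.val + 1 ≤ n
  · obtain ⟨h1, h2, h12, n1, n2, p1, p2, b1, b2, b3, b4⟩ :=
      key n K m.val hK hn (by omega) hc
    refine ⟨(Z K h1 h2).image (fun z : ℤ => (z : ZMod n)), ?_, ?_⟩
    · rw [Finset.card_image_of_injOn, Z_card h12 n1 n2]
      intro z hz z' hz' h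
      have e1 := Z_mem (Finset.mem_coe.1 hz)
      have e2 := Z_mem (Finset.mem_coe.1 hz')
      unfold P at e1 e2
      exact cast_inj h (by omega) (by omega)
    · intro h hh
      obtain ⟨z, hz, rfl⟩ := Finset.mem_image.1 hh
      have e : ∀ z : ℤ, -m - (z : ZMod n) = ((-(((m.val : ℕ) : ℤ) + z) : ℤ) : ZMod n) := by
        intro z
        push_cast
        rw [hmv]
        ring
      rcases Z_mem hz with rfl | rfl | hp
      · right
        rw [e]
        exact ins_of_P (P_neg p1)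
      · right
        rw [e]
        exact ins_of_P (P_neg p2)
      · left
        exact ins_of_P hp
  · obtain ⟨h1, h2, h12, n1, n2, p1, p2, b1, b2, b3, b4⟩ :=
      key n K (n - m.val) hK hn (by omega) (by omega)
    refine ⟨(Z K h1 h2).image (fun z : ℤ => (((-z : ℤ)) : ZMod n)), ?_, ?_⟩
    · rw [Finset.card_image_of_injOn, Z_card h12 n1 n2]
      intro z hz z' hz' h
      have e1 := Z_mem (Finset.mem_coe.1 hz)
      have e2 := Z_mem (Finset.mem_coe.1 hz')
      unfold P at e1 e2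
      have := cast_inj h (by omega) (by omega)
      omega
    · intro h hh
      obtain ⟨z, hz, rfl⟩ := Finset.mem_image.1 hh
      have e : ∀ z : ℤ, -m - ((-z : ℤ) : ZMod n) = (((((n - m.val : ℕ)) : ℤ) + z : ℤ) : ZMod n) := by
        intro z
        push_cast [Nat.cast_sub hv.le]
        rw [hmv]
        simp
      rcases Z_mem hz with rfl | rfl | hp
      · right
        rw [e]
        exact ins_of_P p1
      · right
        rw [e]
        exact ins_of_P p2
      · left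
        exact ins_of_P (P_neg hp)

end Pool.Agent.X115.KE
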